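import Pool.Agent.helper37.QA.Quasi

/-!
# Attracting sets of holomorphic endomorphisms of `ℙ^k` contain periodic points

`PP k` is `ℙ^k`; `Endo k d` is the type of holomorphic endomorphisms of `ℙ^k` of algebraic degree
`d`; `IsTrapping f U`: `U` is a trapping region; `attr f U`: its attracting set
(file `Pool/Agent/helper37/QA/Defs.lean`). A quasi-attractor is a nonempty intersection
`⋂ i, attr f (U i)` of attracting sets.
-/

set_option autoImplicit false

namespace Pool.Agent.Results.MP_063734_an.AttractingSets

open Pool.Agent.helper37.QA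

/-- Let `f` be a holomorphic endomorphism of `ℙ^k` of degree `d ≥ 2` and let
`K = ⋂ i, attr f (U i)` be a nonempty intersection of attracting sets. If the family is finite (in
particular if `K` is an attracting set), then `K` contains a periodic point. For every family,
each neighbourhood of `K` contains a whole periodic orbit. -/
theorem result (k d : ℕ) (hd : 2 ≤ d) (f : Endo k d) {ι : Type} (U : ι → Set (PP k))
    (hU : ∀ i, IsTrapping f (U i)) (hne : (⋂ i, attr f (U i)).Nonempty) :
    (Finite ι → ∃ x ∈ ⋂ i, attr f (U i), ∃ n : ℕ, 0 < n ∧ f.map^[n] x = x) ∧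
    (∀ V : Set (PP k), IsOpen V → ⋂ i, attr f (U i) ⊆ V →
      ∃ x : PP k, (∃ n : ℕ, 0 < n ∧ f.map^[n] x = x) ∧ ∀ m : ℕ, f.map^[m] x ∈ V) := by
  refine ⟨fun hfin => ?_, fun V hV hKV => periodic_nhds hd hU hne hV hKV⟩
  have : Fintype ι := Fintype.ofFinite ι
  have h1 : ⋂ i ∈ (Finset.univ : Finset ι), attr f (U i) = ⋂ i, attr f (U i) := by simp
  have h2 := periodic_finset hd Finset.univ hU (by rw [h1]; exact hne)
  rw [h1] at h2
  exact h2

end Pool.Agent.Results.MP_063734_an.AttractingSets
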