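import Pool.Agent.helper15.QB.Line

/-!
# Quasi-attractors and periodic curves of endomorphisms of `ℙ^k`

`PP k` is `ℙ^k`; `Endo k d` is the type of holomorphic endomorphisms of `ℙ^k` of algebraic degree
`d`; `IsTrapping f U`: `U` is a trapping region; `attr f U`: its attracting set
(file `Pool/Agent/helper37/QA/Defs.lean`). A quasi-attractor is a nonempty intersection
`⋂ i, attr f (U i)` of an arbitrary (possibly infinite) family of attracting sets.
-/

set_option autoImplicit false

namespace Pool.Agent.Results.MP_063734_an.PeriodicCurve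

open MvPolynomial Pool.Agent.helper37.QA

/-- Every quasi-attractor of `f` contains a periodic point of `f`. -/
def Good {k d : ℕ} (f : Endo k d) : Prop :=
  ∀ (ι : Type) (U : ι → Set (PP k)), (∀ i, IsTrapping f (U i)) →
    (⋂ i, attr f (U i)).Nonempty →
    ∃ x ∈ ⋂ i, attr f (U i), ∃ n : ℕ, 0 < n ∧ f.map^[n] x = x

/-- `S` is a periodic rational curve of `f`: the image of `ℙ^1` under a continuous map which
semiconjugates an endomorphism of `ℙ^1` of degree at least `2` to an iterate of `f`. -/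
def RationalCurve {k d : ℕ} (f : Endo k d) (S : Set (PP k)) : Prop :=
  ∃ (m d' : ℕ) (g : Endo 1 d') (φ : PP 1 → PP k), 0 < m ∧ 2 ≤ d' ∧ Continuous φ ∧
    (∀ z, f.map^[m] (φ z) = φ (g.map z)) ∧ Set.range φ = S

/-- `S` is a periodic elliptic curve of `f`: the image of a complex torus `ℂ / (ℤ ω₁ + ℤ ω₂)`
under a continuous map which semiconjugates an affine map with multiplier of modulus greater than
`1` to an iterate of `f`. -/
def EllipticCurve {k d : ℕ} (f : Endo k d) (S : Set (PP k)) : Prop :=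
  ∃ (m : ℕ) (a b ω₁ ω₂ : ℂ) (φ : ℂ → PP k), 0 < m ∧ 1 < ‖a‖ ∧
    LinearIndependent ℝ ![ω₁, ω₂] ∧ Continuous φ ∧ (∀ z, φ (z + ω₁) = φ z) ∧
    (∀ z, φ (z + ω₂) = φ z) ∧ (∀ z, f.map^[m] (φ z) = φ (a * z + b)) ∧ Set.range φ = S

/-- `S` is the image of a projective space `ℙ^j` under a continuous map which semiconjugates to an
iterate of `f` an endomorphism of `ℙ^j` all of whose quasi-attractors contain periodic points. -/
def GoodImage {k d : ℕ} (f : Endo k d) (S : Set (PP k)) : Prop :=
  ∃ (m j d' : ℕ) (g : Endo j d') (φ : PP j → PP k), 0 < m ∧ Good g ∧ Continuous φ ∧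
    (∀ z, f.map^[m] (φ z) = φ (g.map z)) ∧ Set.range φ = S

/-- `S` is the image of a complete metric space `E` under a continuous map which semiconjugates a
uniformly expanding surjection of `E` to an iterate of `f` and whose restriction to every ball of
some radius `R` is onto `S`. This holds for complex tori of any dimension. -/
def ExpandingImage {k d : ℕ} (f : Endo k d) (S : Set (PP k)) : Prop :=
  ∃ (E : Type) (_ : MetricSpace E) (_ : CompleteSpace E) (T : E → E) (φ : E → PP k) (c R : ℝ)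
    (m : ℕ), 0 < m ∧ 1 < c ∧ (∀ z w, c * dist z w ≤ dist (T z) (T w)) ∧
      Function.Surjective T ∧ Continuous φ ∧ (∀ z y : E, ∃ z', dist z' z ≤ R ∧ φ z' = φ y) ∧
      (∀ z, f.map^[m] (φ z) = φ (T z)) ∧ Set.range φ = S

/-- A periodic set with one of the above parametrisations. -/
def Nice {k d : ℕ} (f : Endo k d) (S : Set (PP k)) : Prop :=
  RationalCurve f S ∨ EllipticCurve f S ∨ GoodImage f S ∨ ExpandingImage f S

/-- Let `f` be a holomorphic endomorphism of `ℙ^k` of degree `d ≥ 2`.

* A quasi-attractor of `f` without periodic points meets every algebraic hypersurface, and no point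
  of it is mapped by an iterate of `f` to a periodic rational curve, to a periodic elliptic curve,
  or to any other nice set.
* Hence, if every point of some algebraic hypersurface is mapped by an iterate of `f` into a nice
  set, then every quasi-attractor of `f` contains a periodic point. -/
theorem result (k d : ℕ) (hd : 2 ≤ d) (f : Endo k d) :
    (∀ (ι : Type) (U : ι → Set (PP k)), (∀ i, IsTrapping f (U i)) →
      (⋂ i, attr f (U i)).Nonempty →
      (∀ x ∈ ⋂ i, attr f (U i), ∀ n : ℕ, 0 < n → f.map^[n] x ≠ x) →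
      (∀ (e : ℕ) (h : MvPolynomial (Fin (k + 1)) ℂ), 0 < e → h.IsHomogeneous e →
        ∃ x ∈ ⋂ i, attr f (U i), eval x.rep h = 0) ∧
      (∀ S : Set (PP k), Nice f S → ∀ x ∈ ⋂ i, attr f (U i), ∀ l : ℕ, f.map^[l] x ∉ S)) ∧
    (∀ (e : ℕ) (h : MvPolynomial (Fin (k + 1)) ℂ), 0 < e → h.IsHomogeneous e →
      (∀ x : PP k, eval x.rep h = 0 → ∃ (l : ℕ) (S : Set (PP k)), f.map^[l] x ∈ S ∧ Nice f S) →
      Good f) := by
  have hN : ∀ S : Set (PP k), Nice f S → Pool.Agent.helper15.QB.GoodSet f S := by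
    rintro S (⟨m, d', g, φ, hm, hd', hφ, hsemi, rfl⟩ |
      ⟨m, a, b, ω₁, ω₂, φ, hm, ha, hω, hφ, h1, h2, hsemi, rfl⟩ |
      ⟨m, j, d', g, φ, hm, hg, hφ, hsemi, rfl⟩ |
      ⟨E, i1, i2, T, φ, c, R, m, hm, hc, hexp, hsurj, hφ, hR, hsemi, rfl⟩)
    · exact Pool.Agent.helper15.QB.good_image (Pool.Agent.helper15.QB.good_one hd' g) hφ hm hsemi
    · exact Pool.Agent.helper15.QB.good_elliptic hm ha hω hφ h1 h2 hsemi
    · exact Pool.Agent.helper15.QB.good_image hg hφ hm hsemi
    · exact Pool.Agent.helper15.QB.good_expand hc hexp hsurj hφ hR hm hsemi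
  refine ⟨?_, ?_⟩
  · intro ι U hU hne hno
    refine ⟨fun e h he hh => ?_, fun S hS x hx l hl => ?_⟩
    · by_contra hcon
      push Not at hcon
      obtain ⟨x, hx, n, hn, hxn⟩ := Pool.Agent.helper15.QB.miss hd hU hne he hh hcon
      exact hno x hx n hn hxn
    · obtain ⟨y, ⟨-, hy⟩, n, hn, hyn⟩ := hN S hS ι U hU ⟨f.map^[l] x, hl,
        Set.mem_iInter.2 fun i => attr_inv (hU i) (Set.mem_iInter.1 hx i) l⟩
      exact hno y hy n hn hyn
  · intro e h he hh hx
    refine Pool.Agent.helper15.QB.good_of_eventually hd he hh fun x hx0 => ?_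
    obtain ⟨l, S, hxS, hS⟩ := hx x hx0
    exact ⟨l, S, hxS, hN S hS⟩

end Pool.Agent.Results.MP_063734_an.PeriodicCurve
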