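import Pool.Agent.helper37.P2F.All
import Pool.Agent.helper37.P2F.Flag2

/-!
# Quasi-attractors of endomorphisms of the projective plane contain periodic points

`PP k` is `ℙ^k`; `Endo k d` is the type of holomorphic endomorphisms of `ℙ^k` of algebraic degree
`d`; `IsTrapping f U`: `U` is a trapping region; `attr f U`: its attracting set
(file `Pool/Agent/helper37/QA/Defs.lean`). A quasi-attractor is a nonempty intersection
`⋂ i, attr f (U i)` of an arbitrary (possibly infinite) family of attracting sets.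
-/

set_option autoImplicit false

namespace Pool.Agent.Results.MP_063734_an.Plane

open MvPolynomial Pool.Agent.helper37.QA

/-- Every quasi-attractor of `f` contains a periodic point of `f`. -/
def Good {k d : ℕ} (f : Endo k d) : Prop :=
  ∀ (ι : Type) (U : ι → Set (PP k)), (∀ i, IsTrapping f (U i)) →
    (⋂ i, attr f (U i)).Nonempty →
    ∃ x ∈ ⋂ i, attr f (U i), ∃ n : ℕ, 0 < n ∧ f.map^[n] x = x

/-- Every quasi-attractor of every holomorphic endomorphism of `ℙ^2` of degree `d ≥ 2` contains a
periodic point.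

More generally, let `f` be a holomorphic endomorphism of `ℙ^k` of degree `d ≥ 2` such that an
iterate `f^m` maps into itself each member `{L₀ = ... = L_i = 0}`, `i ≤ k - 3`, of a flag of linear
subspaces of the dimensions `k - 1, ..., 2` (no condition if `k ≤ 2`; one plane if `k = 3`; for
instance if the `i`-th polynomial of `f` involves only the variables `x₀, ..., x_i`, for
`i ≤ k - 3`). Then every quasi-attractor of `f` contains a periodic point. -/
theorem result :
    (∀ d : ℕ, 2 ≤ d → ∀ f : Endo 2 d, Good f) ∧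
    (∀ k d : ℕ, 2 ≤ d → ∀ f : Endo k d,
      (∀ (m : ℕ) (L : (Fin (k + 1) → ℂ) ≃ₗ[ℂ] (Fin (k + 1) → ℂ)), 0 < m →
        (∀ (i : Fin (k + 1)) (p : PP k), (i : ℕ) + 3 ≤ k → (∀ j ≤ i, L p.rep j = 0) →
          ∀ j ≤ i, L (f.map^[m] p).rep j = 0) → Good f) ∧
      ((∀ i : Fin (k + 1), (i : ℕ) + 3 ≤ k → ∀ j ∈ (f.F i).vars, j ≤ i) → Good f)) := by
  have H : ∀ d : ℕ, 2 ≤ d → ∀ f : Endo 2 d, Pool.Agent.helper15.QB.Good f :=
    fun d hd f ι U hU hne => Pool.Agent.helper37.P2F.AC.T_P2_QAP d f hd ι U hU hne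
  exact ⟨H, fun k d hd f => ⟨fun m L hm hL => Pool.Agent.P2F.flag2_iter H hd f hm L hL,
    fun hf => Pool.Agent.P2F.tri2 (H d hd) hd f hf⟩⟩

end Pool.Agent.Results.MP_063734_an.Plane
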